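import Pool.Agent.H2.ST.Targets

/-!
Board st2_modules, row DVM: homogeneous elements are monomials times invariants.
-/

set_option autoImplicit false

namespace Pool.Agent.H74.ST2.DVM

open Pool.Agent.H2.ST MvPolynomial

variable {k : Type} [Field k] {m : ℕ} {Γ : Type} [AddCommGroup Γ]
  {W : Γ → Submodule k (Pol k m)}

/-- divisibility between primes forces equality of the weights -/
theorem wt_of_dvd (h : Gr W) {a b : Γ} {p q : Pol k m} (hp : Prime p) (hq : Prime q)
    (hpa : p ∈ W a) (hqb : q ∈ W b) (hd : p ∣ q) : a = b := by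
  obtain ⟨s, hs⟩ := hd
  have hu : IsUnit s := (hq.irreducible.isUnit_or_isUnit hs).resolve_left hp.not_isUnit
  rw [MvPolynomial.isUnit_iff_eq_C_of_isReduced] at hu
  obtain ⟨r, _, hrs⟩ := hu
  have h1 : q ∈ W a := by
    rw [hs, hrs, mul_comm, ← MvPolynomial.smul_eq_C_mul]
    exact (W a).smul_mem r hpa
  exact wt_uniq h h1 hqb hq.ne_zero

theorem isRelPrime_of_wt (h : Gr W) {a b : Γ} {p q : Pol k m} (hp : Prime p) (hq : Prime q)
    (hpa : p ∈ W a) (hqb : q ∈ W b) (hab : a ≠ b) : IsRelPrime p q := by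
  rw [hp.irreducible.isRelPrime_iff_not_dvd]
  exact fun hd => hab (wt_of_dvd h hp hq hpa hqb hd)

theorem pf_DVM : T_DVM := by
  classical
  intro k _ _ m Γ _ W w π u v c hs χ f hf hf0
  have hG : Gr W := hs.toPGr.toGr
  obtain ⟨e0, he0⟩ := hs.wt χ f hf hf0
  set e : Fin m → ℤ := fun i => if w i = 0 then 0 else e0 i with he
  have hez : ∀ i, w i = 0 → e i = 0 := fun i hi => by simp only [he]; rw [if_pos hi]
  have hχ : χ = ∑ i, e i • w i := by
    rw [he0]
    refine Finset.sum_congr rfl fun i _ => ?_
    by_cases hi : w i = 0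
    · rw [hi, smul_zero, smul_zero]
    · simp only [he]; rw [if_neg hi]
  have hπ : ∀ i, w i ≠ 0 → π i χ = e i * π i (w i) := by
    intro i hi
    rw [hχ, map_sum, Finset.sum_eq_single i]
    · rw [map_zsmul, smul_eq_mul]
    · intro j _ hj
      rw [map_zsmul, hs.pz i hi j hj, smul_zero]
    · intro h; exact absurd (Finset.mem_univ i) h
  set q : Fin m → Pol k m := fun i => u i ^ (e i).toNat * v i ^ (- e i).toNat with hq
  have hqd : ∀ i, q i ∣ f := by
    intro i
    by_cases hi : w i = 0
    · simp only [hq]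
      rw [hez i hi]
      simp
    · have hP := hs.par i hi
      rcases le_total 0 (e i) with h0 | h0
      · have h1 : (-e i).toNat = 0 := by omega
        simp only [hq]
        rw [h1, pow_zero, mul_one]
        refine hP.pos _ χ ?_ f hf
        rw [hπ i hi, Int.toNat_of_nonneg h0]
      · have h1 : (e i).toNat = 0 := by omega
        simp only [hq]
        rw [h1, pow_zero, one_mul]
        refine hP.neg _ χ ?_ f hf
        rw [hπ i hi, Int.toNat_of_nonneg (by omega)]
        exact le_of_eq (neg_mul _ _)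
  have hrel : ((Finset.univ : Finset (Fin m)) : Set (Fin m)).Pairwise
      (Function.onFun IsRelPrime q) := by
    intro i _ j _ hij
    simp only [Function.onFun]
    by_cases hi : w i = 0
    · have : q i = 1 := by simp only [hq]; rw [hez i hi]; simp
      rw [this]; exact isRelPrime_one_left
    by_cases hj : w j = 0
    · have : q j = 1 := by simp only [hq]; rw [hez j hj]; simp
      rw [this]; exact isRelPrime_one_right
    have hPi := hs.par i hi
    have hPj := hs.par j hj
    have hij0 : π i (w j) = 0 := hs.pz i hi j (Ne.symm hij)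
    have hpa := hPi.pa
    have n1 : w i ≠ w j := fun h => by rw [h, hij0] at hpa; exact lt_irrefl _ hpa
    have n2 : w i ≠ -w j := fun h => by
      rw [h, map_neg, hij0, neg_zero] at hpa; exact lt_irrefl _ hpa
    have n3 : -w i ≠ w j := fun h => n2 (by rw [← h, neg_neg])
    have n4 : -w i ≠ -w j := fun h => n1 (neg_inj.1 h)
    have r1 := isRelPrime_of_wt hG hPi.pu hPj.pu hPi.hu hPj.hu n1
    have r2 := isRelPrime_of_wt hG hPi.pu hPj.pv hPi.hu hPj.hv n2
    have r3 := isRelPrime_of_wt hG hPi.pv hPj.pu hPi.hv hPj.hu n3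
    have r4 := isRelPrime_of_wt hG hPi.pv hPj.pv hPi.hv hPj.hv n4
    simp only [hq]
    exact IsRelPrime.mul_left (IsRelPrime.mul_right r1.pow r2.pow)
      (IsRelPrime.mul_right r3.pow r4.pow)
  have hdiv : mon u v e ∣ f := Finset.prod_dvd_of_isRelPrime hrel fun i _ => hqd i
  obtain ⟨g, hg⟩ := hdiv
  have hmon : mon u v e ∈ W χ := by
    rw [hχ]
    refine prod_mem_gr hG Finset.univ (fun i => e i • w i) _ fun i _ => ?_
    by_cases hi : w i = 0
    · rw [hez i hi]
      simpa using hG.one
    · have hP := hs.par i hi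
      have h1 := hG.mul _ _ _ _ (pow_mem_gr hG hP.hu (e i).toNat)
        (pow_mem_gr hG hP.hv (-e i).toNat)
      have h2 : (e i).toNat • w i + (-e i).toNat • -w i = e i • w i := by
        have h3 : e i = ((e i).toNat : ℤ) - ((-e i).toNat : ℤ) := by omega
        conv_rhs => rw [h3, sub_smul, natCast_zsmul, natCast_zsmul]
        rw [smul_neg, ← sub_eq_add_neg]
      rwa [h2] at h1
  have hmne : mon u v e ≠ 0 := fun h => hf0 (by rw [hg, h, zero_mul])
  refine ⟨e, hez, hχ, g, ?_, hg⟩
  refine mem_of_cmp hG fun b hb => ?_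
  have h1 := cmp_mul_of_mem hG hmon g b
  rw [mul_comm g, ← hg, cmp_of_mem hG hf, Finsupp.single_apply, if_neg] at h1
  · exact (mul_eq_zero.1 h1.symm).resolve_right hmne
  · intro h2
    exact hb (by simpa using h2)

end Pool.Agent.H74.ST2.DVM
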